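import Pool.Agent.N569.OD.Defs
import Pool.Agent.H891R2.DS.All

set_option autoImplicit false

/-!
The blocks of the state sum (adapted from D8 and D9 of `Pool.Agent.H891R2.DS`).
-/

namespace Pool.Agent.N569.OD

open Finset LaurentPolynomial Pool.Agent.H891R2.Jones Pool.Agent.H891R2.MT Pool.Agent.H891R2.DS
open Pool.Agent.H891R2.MT.T4b
open Pool.Agent.H891R2.DS.D8 (curves_bridges sum_split curves_pos)

variable {k : ℕ}

theorem vcomps_empty (G : Ribbon k) : G.comps ∅ = G.verts := D6.comps_empty G

/-- the blocks of higher rank -/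
theorem blk_ge2 (Γ : Ribbon k) (hk : 0 < k) (R F : Finset (Fin k)) (hFR : Disjoint F R)
    (hF : Γ.comps F + 2 ≤ Γ.verts)
    (hrank : ∀ H : Finset (Fin k), (H ∩ R).Nonempty →
      (∀ e ∈ H ∩ R, Γ.comps (H.erase e) = Γ.comps H) → Γ.comps H + 2 * (H ∩ R).card + 2 ≤ Γ.verts) :
    GE (blk Γ R F) (4 * R.card - 2 * Γ.verts + 10) := by
  classical
  have bridges_union := Pool.Agent.H891R2.CA.C6.bridges_union Γ
  have binomial := Pool.Agent.H891R2.CA.C7.binomial (k := k)
  set H := F ∪ R with hH
  set B := R.filter (fun e => Γ.comps (H.erase e) = Γ.comps H + 1) with hBdef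
  have hBR : B ⊆ R := filter_subset _ _
  have hBbr : ∀ e ∈ B, Γ.comps (H.erase e) = Γ.comps H + 1 := fun e he => (mem_filter.mp he).2
  have hBH : B ⊆ H := hBR.trans subset_union_right
  have hcardR : R.card = (R \ B).card + B.card := by
    rw [card_sdiff_of_subset hBR]
    have := card_le_card hBR
    omega
  have hdis : ∀ Q' ⊆ R \ B, Disjoint (F ∪ Q') B := by
    intro Q' hQ'
    rw [disjoint_union_left]
    exact ⟨disjoint_of_subset_right hBR hFR, disjoint_of_subset_left hQ' sdiff_disjoint⟩
  have hcardU : ∀ Q ⊆ R, (F ∪ Q).card = F.card + Q.card := fun Q hQ =>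
    card_union_of_disjoint (disjoint_of_subset_right hQ hFR)
  have hcurv : ∀ Q' ⊆ R \ B, ∀ Q'' ⊆ B,
      Γ.curves (F ∪ Q') = Γ.curves (F ∪ (Q' ∪ Q'')) + Q''.card := by
    intro Q' hQ' Q'' hQ''
    rw [← union_assoc]
    exact curves_bridges Γ (curves_bridge Γ) H Q'' (F ∪ Q') (hQ''.trans hBH)
      (fun e he => hBbr e (hQ'' he))
      (union_subset_union le_rfl (hQ'.trans sdiff_subset))
      (disjoint_of_subset_right hQ'' (hdis Q' hQ'))
  -- the rank inequality
  have hmain : Γ.comps (F ∪ (R \ B)) + 2 * (R \ B).card + 2 ≤ Γ.verts := by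
    by_cases hne : (R \ B).Nonempty
    · have h1 : (F ∪ (R \ B)) ∩ R = R \ B := by
        ext x
        simp only [mem_inter, mem_union, mem_sdiff]
        constructor
        · rintro ⟨h | h, hR⟩
          · exact absurd hR (disjoint_left.mp hFR h)
          · exact h
        · intro h
          exact ⟨Or.inr h, h.1⟩
      have h2 := hrank (F ∪ (R \ B)) (by rw [h1]; exact hne)
      rw [h1] at h2
      apply h2
      intro e he
      have heR : e ∈ R := (mem_sdiff.mp he).1
      have heB : e ∉ B := (mem_sdiff.mp he).2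
      have heH : e ∈ H := mem_union_right _ heR
      have h3 : Γ.comps (H.erase e) = Γ.comps H := by
        have h4 := T3a.comps_erase Γ H e heH
        have h5 : Γ.comps (H.erase e) ≠ Γ.comps H + 1 := fun h => heB (mem_filter.mpr ⟨heR, h⟩)
        omega
      have hunion : F ∪ (R \ B) ∪ B = H := by
        rw [union_assoc, sdiff_union_of_subset hBR]
      have h6 := bridges_union H B (F ∪ (R \ B)) hBH hBbr
        (union_subset_union le_rfl sdiff_subset) (hdis _ le_rfl)
      rw [hunion] at h6
      have h7 := bridges_union H B ((F ∪ (R \ B)).erase e) hBH hBbr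
        ((erase_subset _ _).trans (union_subset_union le_rfl sdiff_subset))
        (disjoint_of_subset_left (erase_subset _ _) (hdis _ le_rfl))
      have h8 : (F ∪ (R \ B)).erase e ∪ B = H.erase e := by
        ext x
        by_cases hxe : x = e
        · subst hxe
          simp [heB]
        · have : x ∈ F ∪ (R \ B) ∪ B ↔ x ∈ H := by rw [hunion]
          simp only [mem_union, mem_erase] at this ⊢
          tauto
      rw [h8, h3, ← h6] at h7
      exact h7
    · rw [not_nonempty_iff_eq_empty] at hne
      rw [hne, union_empty, card_empty]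
      omega
  -- the sum
  have hsum : blk Γ R F = ∑ Q' ∈ (R \ B).powerset, T (2 * F.card - 2 * Q'.card) *
      ((-1) ^ B.card * T (2 * B.card) * (-T 2 - T (-2)) ^ (Γ.curves (F ∪ Q') - 1 - B.card)) := by
    unfold blk
    rw [sum_split R B hBR]
    apply Finset.sum_congr rfl
    intro Q' hQ'
    rw [mem_powerset] at hQ'
    have hx : B.card ≤ Γ.curves (F ∪ Q') - 1 := by
      have h1 := hcurv Q' hQ' B le_rfl
      have h2 := curves_pos Γ hk (F ∪ (Q' ∪ B))
      omega
    rw [← binomial B _ hx, mul_sum]
    apply Finset.sum_congr rfl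
    intro Q'' hQ''
    rw [mem_powerset] at hQ''
    have h1 := hcurv Q' hQ' Q'' hQ''
    have h3 : Γ.curves (F ∪ (Q' ∪ Q'')) - 1 = Γ.curves (F ∪ Q') - 1 - Q''.card := by omega
    have h4 : (Q' ∪ Q'').card = Q'.card + Q''.card :=
      card_union_of_disjoint (disjoint_of_subset_right hQ''
        (disjoint_of_subset_left hQ' sdiff_disjoint))
    rw [h3, ← mul_assoc, ← T_add, h4]
    congr 2
    push_cast; ring
  rw [hsum]
  apply D8.GE_sum
  intro Q' hQ'
  rw [mem_powerset] at hQ'
  have hx : B.card ≤ Γ.curves (F ∪ Q') - 1 := by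
    have h1 := hcurv Q' hQ' B le_rfl
    have h2 := curves_pos Γ hk (F ∪ (Q' ∪ B))
    omega
  have hx1 := curves_pos Γ hk (F ∪ Q')
  have hS := (SIn.T (2 * (F.card : ℤ) - 2 * Q'.card)).mul
    (((SIn_sgn B.card).mul (SIn.T (2 * (B.card : ℤ)))).mul
      (SIn_d.pow (Γ.curves (F ∪ Q') - 1 - B.card)))
  intro j hj
  refine le_trans ?_ (hS j hj).1
  have h1 := curves_le Γ (F ∪ Q')
  have h2 := hcardU Q' (hQ'.trans sdiff_subset)
  have h3 := T3a.mono Γ (F ∪ (R \ B)).card (F ∪ Q') (F ∪ (R \ B)) (by omega)
    (union_subset_union le_rfl hQ')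
  rw [h2, hcardU _ sdiff_subset] at h3
  rw [h2] at h1
  have h4 : ((Γ.curves (F ∪ Q') - 1 - B.card : ℕ) : ℤ) = Γ.curves (F ∪ Q') - 1 - B.card := by
    omega
  rw [h4]
  push_cast at h1 ⊢
  omega

/-- a block in which all exceptional edges are bridges -/
theorem blk_bridges (G : Ribbon k) (hk : 0 < k) (M F : Finset (Fin k)) (hFM : Disjoint F M)
    (hb : ∀ e ∈ M, G.comps ((F ∪ M).erase e) = G.comps (F ∪ M) + 1) :
    M.card + 1 ≤ G.curves F ∧
      blk G M F = T (2 * F.card) * ((-1) ^ M.card * T (2 * M.card) *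
        (-T 2 - T (-2)) ^ (G.curves F - 1 - M.card)) := by
  classical
  have hcurv : ∀ Q ⊆ M, G.curves F = G.curves (F ∪ Q) + Q.card := fun Q hQ =>
    curves_bridges G (curves_bridge G) (F ∪ M) Q F (hQ.trans subset_union_right)
      (fun e he => hb e (hQ he)) subset_union_left (disjoint_of_subset_right hQ hFM)
  have hM : M.card + 1 ≤ G.curves F := by
    have h1 := hcurv M subset_rfl
    have h2 := curves_pos G hk (F ∪ M)
    omega
  refine ⟨hM, ?_⟩
  rw [← Pool.Agent.H891R2.CA.C7.binomial M (G.curves F - 1) (by omega), mul_sum]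
  unfold blk
  apply Finset.sum_congr rfl
  intro Q hQ
  rw [mem_powerset] at hQ
  have h1 := hcurv Q hQ
  have h3 : G.curves (F ∪ Q) - 1 = G.curves F - 1 - Q.card := by omega
  rw [h3, ← mul_assoc, ← T_add]
  congr 2

/-- in the blocks of rank one all exceptional edges are bridges -/
theorem bridges_rank_one (G : Ribbon k) (M F : Finset (Fin k)) (hFM : Disjoint F M)
    (hF : G.comps F + 1 = G.verts)
    (hrank : ∀ H : Finset (Fin k), (H ∩ M).Nonempty →
      (∀ e ∈ H ∩ M, G.comps (H.erase e) = G.comps H) → G.comps H + 2 * (H ∩ M).card + 2 ≤ G.verts) :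
    ∀ e ∈ M, G.comps ((F ∪ M).erase e) = G.comps (F ∪ M) + 1 := by
  classical
  set H := F ∪ M with hH
  set B := M.filter (fun e => G.comps (H.erase e) = G.comps H + 1) with hBdef
  have hBM : B ⊆ M := filter_subset _ _
  have hBbr : ∀ e ∈ B, G.comps (H.erase e) = G.comps H + 1 := fun e he => (mem_filter.mp he).2
  have hBH : B ⊆ H := hBM.trans subset_union_right
  have hdis : Disjoint (F ∪ (M \ B)) B := by
    rw [disjoint_union_left]
    exact ⟨disjoint_of_subset_right hBM hFM, sdiff_disjoint⟩
  have bridges_union := Pool.Agent.H891R2.CA.C6.bridges_union G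
  have hempty : M \ B = ∅ := by
    by_contra hcon
    have hne : (M \ B).Nonempty := nonempty_iff_ne_empty.2 hcon
    have h1 : (F ∪ (M \ B)) ∩ M = M \ B := by
      ext x
      simp only [mem_inter, mem_union, mem_sdiff]
      constructor
      · rintro ⟨h | h, hR⟩
        · exact absurd hR (disjoint_left.mp hFM h)
        · exact h
      · intro h
        exact ⟨Or.inr h, h.1⟩
    have h2 := hrank (F ∪ (M \ B)) (by rw [h1]; exact hne) (by
      rw [h1]
      intro e he
      have heR : e ∈ M := (mem_sdiff.mp he).1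
      have heB : e ∉ B := (mem_sdiff.mp he).2
      have heH : e ∈ H := mem_union_right _ heR
      have h3 : G.comps (H.erase e) = G.comps H := by
        have h4 := T3a.comps_erase G H e heH
        have h5 : G.comps (H.erase e) ≠ G.comps H + 1 := fun h => heB (mem_filter.mpr ⟨heR, h⟩)
        omega
      have hunion : F ∪ (M \ B) ∪ B = H := by
        rw [union_assoc, sdiff_union_of_subset hBM]
      have h6 := bridges_union H B (F ∪ (M \ B)) hBH hBbr
        (union_subset_union le_rfl sdiff_subset) hdis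
      rw [hunion] at h6
      have h7 := bridges_union H B ((F ∪ (M \ B)).erase e) hBH hBbr
        ((erase_subset _ _).trans (union_subset_union le_rfl sdiff_subset))
        (disjoint_of_subset_left (erase_subset _ _) hdis)
      have h8 : (F ∪ (M \ B)).erase e ∪ B = H.erase e := by
        ext x
        by_cases hxe : x = e
        · subst hxe
          simp [heB]
        · have : x ∈ F ∪ (M \ B) ∪ B ↔ x ∈ H := by rw [hunion]
          simp only [mem_union, mem_erase] at this ⊢
          tauto
      rw [h8, h3, ← h6] at h7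
      exact h7)
    rw [h1] at h2
    have h9 := T3a.mono G (F ∪ (M \ B)).card F (F ∪ (M \ B)) (by omega) subset_union_left
    rw [card_union_of_disjoint (disjoint_of_subset_right sdiff_subset hFM)] at h9
    have h10 : 0 < (M \ B).card := card_pos.2 hne
    omega
  intro e he
  apply hBbr
  by_contra heB
  have : e ∈ M \ B := mem_sdiff.2 ⟨he, heB⟩
  rw [hempty] at this
  exact notMem_empty e this

end Pool.Agent.N569.OD
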