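import Pool.Agent.H891R2.DS.Defs

set_option autoImplicit false

/-!
One-sided strongly dominated states of link diagrams.
-/

namespace Pool.Agent.N569.OD

open Finset LaurentPolynomial Pool.Agent.H891R2.Jones Pool.Agent.H891R2.MT Pool.Agent.H891R2.DS

variable {k : ℕ}

/-- Every cycle (nonempty even subgraph) of `G` has at least two more edges outside `M` than in `M`,
and at least three more if it contains an edge of `M`. -/
def SDom (G : Ribbon k) (M : Finset (Fin k)) : Prop :=
  ∀ X : Finset (Fin k), X.Nonempty → EvenSet G X →
    (X ∩ M).card + 2 ≤ (X \ M).card ∧ ((X ∩ M).Nonempty → (X ∩ M).card + 3 ≤ (X \ M).card)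

/-- the vertices of `G` (cycles of `rot`) -/
abbrev Vert (G : Ribbon k) : Type := Quot (fun x y : Fin k × Bool => G.rot x = y)

/-- the vertex of a dart -/
def vtx (G : Ribbon k) (d : Fin k × Bool) : Vert G := Quot.mk _ d

/-- the pair of the two ends of an edge -/
def ends (G : Ribbon k) (e : Fin k) : Sym2 (Vert G) := s(vtx G (e, false), vtx G (e, true))

open Classical in
/-- the number of pairs of vertices which are joined by edges outside `M` -/
noncomputable def npairs (G : Ribbon k) (M : Finset (Fin k)) : ℕ := ((Mᶜ).image (ends G)).card

end Pool.Agent.N569.OD
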