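import Pool.Agent.N569.OD.Pairs

set_option autoImplicit false

/-!
The number of pairs of adjacent vertices, and colourings.
-/

namespace Pool.Agent.N569.OD

open Finset Pool.Agent.H891R2.Jones Pool.Agent.H891R2.MT Pool.Agent.H891R2.DS

variable {k : ℕ}

instance (G : Ribbon k) : Finite (Vert G) := Finite.of_surjective (Quot.mk _) Quot.mk_surjective

/-- the simple graph of the ribbon graph `G` -/
def gr (G : Ribbon k) : SimpleGraph (Vert G) where
  Adj u w := u ≠ w ∧ ∃ e, ends G e = s(u, w)
  symm := ⟨fun u w h => ⟨h.1.symm, h.2.imp fun e he => by rw [he, Sym2.eq_swap]⟩⟩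
  loopless := ⟨fun u h => h.1 rfl⟩

theorem gr_connected (G : Ribbon k) (hk : 0 < k) (hG : G.comps Finset.univ = 1) :
    (gr G).Connected := by
  have hsub : Subsingleton (Quot (T3a.rel G Finset.univ)) := by
    rw [T3a.comps_def, Nat.card_eq_one_iff_unique] at hG
    exact hG.1
  let φ : Quot (T3a.rel G Finset.univ) → (gr G).ConnectedComponent :=
    Quot.lift (fun x => (gr G).connectedComponentMk (vtx G x)) (by
      rintro ⟨e, b⟩ y (h | ⟨_, rfl⟩)
      · have : vtx G (e, b) = vtx G y := Quot.sound h
        rw [this]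
      · rw [SimpleGraph.ConnectedComponent.eq]
        by_cases h1 : vtx G (e, b) = vtx G (Pool.Agent.H891R2.MT.flip (e, b))
        · rw [h1]
        · refine SimpleGraph.Adj.reachable ⟨h1, e, ?_⟩
          cases b
          · rfl
          · exact Sym2.eq_swap)
  have : Nonempty (Vert G) := ⟨vtx G (⟨0, hk⟩, false)⟩
  refine SimpleGraph.Connected.mk ?_
  intro u w
  obtain ⟨x, rfl⟩ := Quot.exists_rep u
  obtain ⟨y, rfl⟩ := Quot.exists_rep w
  have h1 : φ (Quot.mk _ x) = φ (Quot.mk _ y) :=
    congrArg φ (Subsingleton.elim (Quot.mk (T3a.rel G Finset.univ) x) (Quot.mk (T3a.rel G Finset.univ) y))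
  exact SimpleGraph.ConnectedComponent.eq.1 h1

theorem card_edges_le (G : Ribbon k) (M : Finset (Fin k)) :
    Nat.card (gr G).edgeSet ≤ M.card + npairs G M := by
  classical
  have h1 : (gr G).edgeSet ⊆ ((M.image (ends G) ∪ (Mᶜ).image (ends G) : Finset (Sym2 (Vert G))) :
      Set (Sym2 (Vert G))) := by
    intro s hs
    induction s with
    | _ u w =>
      rw [SimpleGraph.mem_edgeSet] at hs
      obtain ⟨_, e, he⟩ := hs
      rw [Finset.mem_coe, mem_union, mem_image, mem_image]
      by_cases heM : e ∈ M
      · exact Or.inl ⟨e, heM, he⟩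
      · exact Or.inr ⟨e, mem_compl.2 heM, he⟩
  have h2 := Set.ncard_le_ncard h1 (Finset.finite_toSet _)
  rw [Set.ncard_coe_finset] at h2
  have h3 := card_union_le (M.image (ends G)) ((Mᶜ).image (ends G))
  have h4 := card_image_le (s := M) (f := ends G)
  have h5 : Nat.card (gr G).edgeSet = (gr G).edgeSet.ncard := rfl
  have h6 : npairs G M = ((Mᶜ).image (ends G)).card := by
    unfold npairs
    congr!
  omega

/-- the number of vertices -/
theorem verts_le (G : Ribbon k) (hk : 0 < k) (hG : G.comps Finset.univ = 1) (M : Finset (Fin k)) :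
    G.verts ≤ M.card + npairs G M + 1 := by
  have h1 := (gr_connected G hk hG).card_vert_le_card_edgeSet_add_one
  have h2 := card_edges_le G M
  have h3 : G.verts = Nat.card (Vert G) := rfl
  omega

/-- in the case of equality the graph has a proper colouring with two colours -/
theorem exists_colouring (G : Ribbon k) (hk : 0 < k) (hG : G.comps Finset.univ = 1)
    (M : Finset (Fin k)) (hl : ∀ e, vtx G (e, false) ≠ vtx G (e, true))
    (h : G.verts = M.card + npairs G M + 1) :
    ∃ g : Fin k × Bool → Bool, (∀ d, g (G.rot d) = g d) ∧ ∀ e, g (e, true) = !(g (e, false)) := by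
  have hc := gr_connected G hk hG
  have h2 := card_edges_le G M
  have h3 : G.verts = Nat.card (Vert G) := rfl
  have h4 := hc.card_vert_le_card_edgeSet_add_one
  have hT : (gr G).IsTree := by
    rw [SimpleGraph.isTree_iff_connected_and_card]
    exact ⟨hc, by omega⟩
  obtain ⟨c⟩ := hT.isBipartite
  refine ⟨fun d => decide (c (vtx G d) = 0), ?_, ?_⟩
  · intro d
    have : vtx G d = vtx G (G.rot d) := Quot.sound (r := fun x y : Fin k × Bool => G.rot x = y) rfl
    simp only [this]
  · intro e
    have h5 : (gr G).Adj (vtx G (e, false)) (vtx G (e, true)) := ⟨hl e, e, rfl⟩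
    have h6 := c.valid h5
    have key : ∀ x y : Fin 2, x ≠ y → decide (y = 0) = !(decide (x = 0)) := by decide
    exact key _ _ h6

end Pool.Agent.N569.OD
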