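import Pool.Agent.N569.OD.Orient

set_option autoImplicit false

/-!
The writhe of a knot diagram with a state whose state graph has a proper colouring with two colours.
-/

namespace Pool.Agent.N569.OD

open Finset Pool.Agent.H891R2.Jones Pool.Agent.H891R2.MT Pool.Agent.H891R2.DS
open Pool.Agent.H891R2.TR.W1 (pts lift_list nodup_sig mem_sig)
open Pool.Agent.TH561.PK (Piece IsKnot)

variable {k : ℕ}

namespace Or

/-- the crossings of the diagram -/
theorem exists_crossings (Γ : Ribbon k) (R : Finset (Fin k)) (D : Diagram (Ribbon.Pt (sg R)))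
    (hD : Orients D (Γ.link (sg R))) :
    ∃ x : Fin k → Crossing (Ribbon.Pt (sg R)), (∀ e, x e ∈ D.crossings) ∧
      (∀ e, ∃ j, pts (x e) = Ribbon.twistCrossing (sg R) e j) ∧ (∀ y ∈ D.crossings, ∃ e, y = x e) ∧
      D.writhe = ∑ e, (x e).sign := by
  set S : List (Σ e : Fin k, Fin (sg R e).natAbs) := (List.finRange k).flatMap
    (fun e => (List.finRange (sg R e).natAbs).map (Sigma.mk e)) with hS
  have h3 : D.crossings.map pts = S.map (fun s => Ribbon.twistCrossing (sg R) s.1 s.2) := by
    have h1 : (fun x : Crossing (Ribbon.Pt (sg R)) => (x.a, x.b, x.c, x.d)) = pts := rfl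
    rw [← h1, hD.2, hS, List.map_flatMap]
    simp only [List.map_map]
    rfl
  obtain ⟨x, hx, hX⟩ := lift_list D.crossings pts S (nodup_sig k _) _ h3 (mem_sig k _)
  have hpos : ∀ e, 0 < (sg R e).natAbs := fun e => by rw [natAbs_sg]; norm_num
  refine ⟨fun e => x ⟨e, ⟨0, hpos e⟩⟩, ?_, ?_, ?_, ?_⟩
  · intro e
    rw [hX]
    exact List.mem_map.2 ⟨_, mem_sig k _ _, rfl⟩
  · intro e
    exact ⟨⟨0, hpos e⟩, hx _⟩
  · intro y hy
    rw [hX] at hy
    obtain ⟨⟨e, j⟩, _, rfl⟩ := List.mem_map.1 hy
    refine ⟨e, ?_⟩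
    have : j = ⟨0, hpos e⟩ := by
      ext
      have h1 := j.2
      have h1' := natAbs_sg R e
      simp only
      omega
    rw [this]
  · unfold Diagram.writhe
    rw [hX, List.map_map, hS, List.map_flatMap, List.flatMap_def, List.sum_flatten, List.map_map,
      Fin.sum_univ_def]
    congr 1
    refine List.map_congr_left fun e _ => ?_
    simp only [Function.comp, List.map_map]
    have h2 : ((List.finRange (sg R e).natAbs).map (fun j => (x ⟨e, j⟩).sign)).sum =
        ∑ j : Fin (sg R e).natAbs, (x ⟨e, j⟩).sign := by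
      rw [Fin.sum_univ_def]
    have h4 : ∀ j : Fin (sg R e).natAbs, j = ⟨0, hpos e⟩ := by
      intro j
      ext
      have h1 := j.2
      have h1' := natAbs_sg R e
      simp only
      omega
    have h5 : ∑ j : Fin (sg R e).natAbs, (x ⟨e, j⟩).sign =
        ∑ _j : Fin (sg R e).natAbs, (x ⟨e, ⟨0, hpos e⟩⟩).sign :=
      Finset.sum_congr rfl (fun j _ => by rw [h4 j])
    rw [Finset.sum_const, Finset.card_univ, Fintype.card_fin] at h5
    have h6 : (sg R e).natAbs • (x ⟨e, ⟨0, hpos e⟩⟩).sign = (x ⟨e, ⟨0, hpos e⟩⟩).sign := by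
      have h7 : ∀ (m : ℕ) (z : ℤ), m = 1 → m • z = z := by
        rintro m z rfl
        exact one_smul _ _
      exact h7 _ _ (natAbs_sg R e)
    rw [h6] at h5
    rw [← h5, ← h2]
    rfl

/-- a function on the marked points -/
def pot (Γ : Ribbon k) (R : Finset (Fin k)) (r : Fin k × Bool → Bool) (p : Ribbon.Pt (sg R)) : Bool :=
  if p.2.1.1 = 0 then (if p.2.2 then r (p.1, false) else r (Γ.rot.symm (p.1, false)))
  else (if p.2.2 then r (Γ.rot.symm (p.1, true)) else r (p.1, true))

theorem pot_left (Γ : Ribbon k) (R : Finset (Fin k)) (r : Fin k × Bool → Bool) (d : Fin k × Bool) :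
    pot Γ R r (Ribbon.left (sg R) d) = r d := by
  obtain ⟨e, b⟩ := d
  cases b
  · rfl
  · have h1 := natAbs_sg R e
    unfold pot Ribbon.left
    simp [Fin.last, h1]

theorem pot_right (Γ : Ribbon k) (R : Finset (Fin k)) (r : Fin k × Bool → Bool) (d : Fin k × Bool) :
    pot Γ R r (Ribbon.right (sg R) d) = r (Γ.rot.symm d) := by
  obtain ⟨e, b⟩ := d
  cases b
  · rfl
  · have h1 := natAbs_sg R e
    unfold pot Ribbon.right
    simp [Fin.last, h1]

/-- the writhe of a knot diagram with a bipartite state graph -/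
theorem writhe_eq (Γ : Ribbon k) (R S : Finset (Fin k)) (D : Diagram (Ribbon.Pt (sg R)))
    (hD : Orients D (Γ.link (sg R))) (hc : D.IsClosed) (hK : IsKnot D)
    (g : Fin k × Bool → Bool) (hg1 : ∀ d, g ((stateGraph Γ S).rot d) = g d)
    (hg2 : ∀ e, g (e, true) = !(g (e, false))) :
    D.writhe = 2 * (Asm R S).card - k := by
  obtain ⟨x, hx1, hx2, hx3, hw⟩ := exists_crossings Γ R D hD
  have hat : ∀ e, dir Γ R D (e, true) = !(dir Γ R D (e, false)) ∧
      dir Γ R D (Γ.rot.symm (e, true)) = !(dir Γ R D (Γ.rot.symm (e, false))) ∧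
      ((x e).sign = if (dir Γ R D (Γ.rot.symm (e, false)) = dir Γ R D (e, false)) ↔ e ∉ R
        then -1 else 1) := by
    intro e
    obtain ⟨j, hj⟩ := hx2 e
    exact at_crossing Γ R D hD hc e (x e) (hx1 e) j hj
  -- the colouring
  have hgr : ∀ e b, g (Γ.rot.symm (e, b)) = if e ∈ S then !(g (e, b)) else g (e, b) := by
    intro e b
    have h1 := hg1 (Γ.rot.symm (e, b))
    have h2 : (stateGraph Γ S).rot (Γ.rot.symm (e, b)) =
        if e ∈ S then Pool.Agent.H891R2.MT.flip (e, b) else (e, b) := by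
      have h3 : (stateGraph Γ S).rot (Γ.rot.symm (e, b)) = flipOn S (Γ.rot (Γ.rot.symm (e, b))) := rfl
      rw [h3, Equiv.apply_symm_apply]
      rfl
    rw [h2] at h1
    rw [← h1]
    by_cases he : e ∈ S
    · rw [if_pos he, if_pos he]
      cases b
      · exact hg2 e
      · show g (e, false) = !(g (e, true))
        rw [hg2 e, Bool.not_not]
    · rw [if_neg he, if_neg he]
  -- the difference
  let r : Fin k × Bool → Bool := fun d => xor (dir Γ R D d) (g d)
  have hr1 : ∀ e, r (e, true) = r (e, false) := by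
    intro e
    simp only [r, (hat e).1, hg2 e]
    cases dir Γ R D (e, false) <;> cases g (e, false) <;> rfl
  have hr2 : ∀ e, r (Γ.rot.symm (e, true)) = r (Γ.rot.symm (e, false)) := by
    intro e
    simp only [r, (hat e).2.1, hgr, hg2 e]
    by_cases he : e ∈ S
    · simp only [he, if_true]
      cases dir Γ R D (Γ.rot.symm (e, false)) <;> cases g (e, false) <;> rfl
    · simp only [he, if_false]
      cases dir Γ R D (Γ.rot.symm (e, false)) <;> cases g (e, false) <;> rfl
  have hpiece : ∀ p q, Piece D p q → pot Γ R r p = pot Γ R r q := by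
    intro p q h
    rcases h with h | ⟨y, hy, h⟩
    · obtain ⟨z, hz, h1⟩ := forall_left hD.1 _ h
      rw [mem_arcs] at hz
      obtain ⟨d, rfl⟩ := hz
      rcases h1 with h1 | h1
      · rw [Prod.mk.injEq] at h1
        rw [h1.1, h1.2, pot_left, pot_right, Equiv.symm_apply_apply]
      · rw [Prod.swap_prod_mk, Prod.mk.injEq] at h1
        rw [h1.1, h1.2, pot_left, pot_right, Equiv.symm_apply_apply]
    · obtain ⟨e, rfl⟩ := hx3 y hy
      obtain ⟨j, hj⟩ := hx2 e
      unfold pts at hj
      by_cases he : e ∈ R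
      · rw [pts_neg R e he j] at hj
        simp only [Prod.mk.injEq] at hj
        obtain ⟨ha, hb, hc', hd⟩ := hj
        rcases h with ⟨rfl, rfl⟩ | ⟨rfl, rfl⟩
        · rw [ha, hc', pot_left, pot_left, hr1]
        · rw [hb, hd, pot_right, pot_right, hr2]
      · rw [pts_pos R e he j] at hj
        simp only [Prod.mk.injEq] at hj
        obtain ⟨ha, hb, hc', hd⟩ := hj
        rcases h with ⟨rfl, rfl⟩ | ⟨rfl, rfl⟩
        · rw [ha, hc', pot_right, pot_right, hr2]
        · rw [hb, hd, pot_left, pot_left, hr1]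
  have hconst : ∀ d d', r d = r d' := by
    intro d d'
    have h1 := hK (Ribbon.left (sg R) d) (Ribbon.left (sg R) d')
    have h2 : ∀ p q, Relation.EqvGen (Piece D) p q → pot Γ R r p = pot Γ R r q := by
      intro p q h
      induction h with
      | rel _ _ h => exact hpiece _ _ h
      | refl _ => rfl
      | symm _ _ _ ih => exact ih.symm
      | trans _ _ _ _ _ ih1 ih2 => exact ih1.trans ih2
    have h3 := h2 _ _ h1
    rwa [pot_left, pot_left] at h3
  have hsign : ∀ e, (x e).sign = if e ∈ Asm R S then 1 else -1 := by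
    intro e
    rw [(hat e).2.2]
    have h1 := hconst (Γ.rot.symm (e, false)) (e, false)
    simp only [r, hgr] at h1
    have h2 : e ∈ Asm R S ↔ (e ∈ S ↔ e ∉ R) := by
      unfold Asm
      simp
    rw [if_congr h2 rfl rfl]
    by_cases heS : e ∈ S <;> by_cases heR : e ∈ R <;>
      cases h3 : dir Γ R D (Γ.rot.symm (e, false)) <;> cases h4 : dir Γ R D (e, false) <;>
      cases h5 : g (e, false) <;> simp [heS, heR, h3, h4, h5] at h1 ⊢
  rw [hw, Finset.sum_congr rfl (fun e _ => hsign e)]
  have h6 : ∀ e : Fin k, (if e ∈ Asm R S then (1 : ℤ) else -1) =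
      2 * (if e ∈ Asm R S then 1 else 0) - 1 := by
    intro e
    split_ifs <;> norm_num
  rw [Finset.sum_congr rfl (fun e _ => h6 e), Finset.sum_sub_distrib, ← Finset.mul_sum,
    Finset.sum_ite_mem, Finset.univ_inter, Finset.sum_const, Finset.sum_const, Finset.card_univ,
    Fintype.card_fin]
  simp

end Or

end Pool.Agent.N569.OD
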