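import Pool.Agent.N569.OD.Second
import Pool.Agent.N569.OD.Tree
import Pool.Agent.N569.OD.Writhe
import Pool.Agent.H891R2.DS.Final

set_option autoImplicit false

/-!
Diagrams with a strongly dominated state on one side.
-/

namespace Pool.Agent.N569.OD

open Finset LaurentPolynomial Pool.Agent.H891R2.Jones Pool.Agent.H891R2.MT Pool.Agent.H891R2.DS
open Pool.Agent.TH561.PK (IsKnot)

variable {k : ℕ}

/-- one side of the bracket -/
theorem side (Γ : Ribbon k) (hΓ : Γ.Planar) (hk : 0 < k) (S M : Finset (Fin k))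
    (h : SDom (stateGraph Γ S) M) :
    (stateGraph Γ S).verts ≤ M.card + npairs (stateGraph Γ S) M + 1 ∧
    GE (T (2 * M.card - k) * PP (stateGraph Γ S) M)
      (6 * M.card - k - 2 * (stateGraph Γ S).verts + 2) ∧
    (T (2 * M.card - k) * PP (stateGraph Γ S) M : ℤ[T;T⁻¹]).coeff
      (6 * M.card - k - 2 * (stateGraph Γ S).verts + 2) = (-1) ^ ((stateGraph Γ S).verts + 1) ∧
    (T (2 * M.card - k) * PP (stateGraph Γ S) M : ℤ[T;T⁻¹]).coeff
      (6 * M.card - k - 2 * (stateGraph Γ S).verts + 2 + 4) = (-1) ^ ((stateGraph Γ S).verts + 1) *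
        ((stateGraph Γ S).verts - 1 - M.card - npairs (stateGraph Γ S) M) := by
  set G := stateGraph Γ S with hG
  have hu : G.comps Finset.univ = 1 := by rw [hG, sg_comps_univ]; exact hΓ.1
  obtain ⟨_, hloop⟩ := rank_ineq G M (rank_bridgeless Γ hΓ S M h.dom)
  have hrank := rank_ineq3 G M (fun H h1 h2 => rank_bridgeless3 Γ hΓ S M h H h1 h2)
  obtain ⟨_, a1, a2, a3⟩ := second G hk M hrank hloop
    (fun F hF => curves_rank_one Γ hΓ S F hloop hF)
  refine ⟨verts_le G hk hu M, ?_, ?_, ?_⟩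
  · intro j hj
    rw [Fin'.coeff_T_mul] at hj
    have := a1 _ hj
    linarith
  · rw [Fin'.coeff_T_mul]
    have e : (6 * (M.card : ℤ) - k - 2 * G.verts + 2) - (2 * M.card - k) =
        4 * M.card - 2 * G.verts + 2 := by ring
    rw [e]
    exact a2
  · rw [Fin'.coeff_T_mul]
    have e : (6 * (M.card : ℤ) - k - 2 * G.verts + 2 + 4) - (2 * M.card - k) =
        4 * M.card - 2 * G.verts + 6 := by ring
    rw [e]
    exact a3

/-- comparison of the lowest coefficients with the ones of `d ^ n` -/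
theorem compare (f : ℤ → ℤ) (n : ℕ) (hf : ∀ j, f j = ((-T 2 - T (-2) : ℤ[T;T⁻¹]) ^ n).coeff j)
    (j0 : ℤ) (ε a : ℤ) (hε : ε ≠ 0) (ha : a ≤ 0) (h1 : ∀ j, f j ≠ 0 → j0 ≤ j) (h2 : f j0 = ε)
    (h3 : f (j0 + 4) = ε * a) : n = 0 ∧ a = 0 ∧ j0 = 0 := by
  have e1 : ((-T 2 - T (-2) : ℤ[T;T⁻¹]) ^ n).coeff (-(2 * n)) = (-1) ^ n := D10.coeff_d_pow n
  have e2 := coeff_d_pow2 n
  have e3 : j0 ≤ -(2 * n) := h1 _ (by
    rw [hf, e1]
    exact pow_ne_zero _ (by norm_num))
  have e4 : -(2 * n : ℤ) ≤ j0 := by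
    have h4 : ((-T 2 - T (-2) : ℤ[T;T⁻¹]) ^ n).coeff j0 ≠ 0 := by
      rw [← hf, h2]; exact hε
    have := (T4b.SIn_d.pow n j0 h4).1
    linarith
  have e5 : j0 = -(2 * n) := by omega
  subst e5
  rw [hf, e1] at h2
  rw [hf, e2, ← h2] at h3
  have h4 : ((-1 : ℤ) ^ n) ≠ 0 := pow_ne_zero _ (by norm_num)
  have h5 := mul_left_cancel₀ h4 h3
  have h6 : n = 0 := by omega
  subst h6
  refine ⟨rfl, by simpa using h5.symm, by simp⟩

/-- if the state graph is a tree, then all crossings are nugatory -/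
theorem nug_all (Γ : Ribbon k) (hΓ : Γ.Planar) (S : Finset (Fin k))
    (h : (stateGraph Γ S).verts = k + 1) (e : Fin k) : Nugatory Γ e := by
  set G := stateGraph Γ S with hG
  have hcard : (univ.erase e).card + 1 = k := by
    rw [card_erase_of_mem (mem_univ e), card_univ, Fintype.card_fin]
    have := e.2
    omega
  -- the edge is a bridge of the state graph
  have h1 : 2 ≤ G.comps (univ.erase e) := by
    have h2 := T3a.mono G k ∅ (univ.erase e) (by omega) (empty_subset _)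
    rw [card_empty, vcomps_empty] at h2
    omega
  unfold Nugatory
  by_cases he : e ∈ S
  · right
    rw [← Nug.erase_of_mem Γ hΓ S e he]
    exact h1
  · left
    rw [← Nug.erase_of_not_mem Γ hΓ S e he]
    exact h1

/-- the main theorem -/
theorem main (Γ : Ribbon k) (hΓ : Γ.Planar) (hk : 0 < k) (R S : Finset (Fin k))
    (h : SDom (stateGraph Γ S) (Asm R S) ∨ SDom (stateGraph Γ S) (Asm R S)ᶜ)
    (D : Diagram (Ribbon.Pt (sg R))) (hD : Orients D (Γ.link (sg R)))
    (c : ℕ) (hc : 1 ≤ c) (hf : D.fPoly = (-T 2 - T (-2)) ^ (c - 1)) :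
    c = 1 ∧ (D.IsClosed → IsKnot D → ∀ e, Nugatory Γ e) := by
  have hP : Nonempty (Ribbon.Pt (sg R)) := ⟨⟨⟨0, hk⟩, 0, true⟩⟩
  have hbr : D.bracket = (Γ.link (sg R)).std.bracket := Pool.Agent.H891R2.MT.T6.bracket_orients D _ hD
  have hcf : ∀ j, D.fPoly.coeff j = (if Even D.writhe then 1 else -1) *
      ((Γ.link (sg R)).std.bracket).coeff (j + 3 * D.writhe) := by
    intro j
    unfold Diagram.fPoly
    rw [hbr]
    have e1 : j - (-3 * D.writhe) = j + 3 * D.writhe := by ring
    by_cases hw : Even D.writhe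
    · rw [if_pos hw, if_pos hw, one_mul, one_mul, Fin'.coeff_T_mul, e1]
    · rw [if_neg hw, if_neg hw]
      have e0 : (-1 : ℤ[T;T⁻¹]) * T (-3 * D.writhe) * (Γ.link (sg R)).std.bracket =
          -(T (-3 * D.writhe) * (Γ.link (sg R)).std.bracket) := by ring
      rw [e0]
      have : (-(T (-3 * D.writhe) * (Γ.link (sg R)).std.bracket)).coeff j =
          -((T (-3 * D.writhe) * (Γ.link (sg R)).std.bracket).coeff j) := rfl
      rw [this, Fin'.coeff_T_mul, neg_one_mul, e1]
  set s : ℤ := if Even D.writhe then 1 else -1 with hs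
  have hs1 : s ≠ 0 := by rw [hs]; split_ifs <;> norm_num
  set G := stateGraph Γ S with hG
  have hu : G.comps Finset.univ = 1 := by rw [hG, sg_comps_univ]; exact hΓ.1
  have hpow : ((-1 : ℤ) ^ (G.verts + 1)) ≠ 0 := pow_ne_zero _ (by norm_num)
  rcases h with h | h
  · -- the lower side
    obtain ⟨a0, a1, a2, a3⟩ := side Γ hΓ hk S _ h
    obtain ⟨_, hloop⟩ := rank_ineq G _ (rank_bridgeless Γ hΓ S _ h.dom)
    have hb := bracket_state Γ hk R S
    rw [← hG] at a0 a1 a2 a3 hb
    rw [← hb] at a1 a2 a3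
    set m := (Asm R S).card with hm
    obtain ⟨n1, n2, n3⟩ := compare (fun j => D.fPoly.coeff j) (c - 1) (fun j => by rw [hf])
      (6 * m - k - 2 * G.verts + 2 - 3 * D.writhe) (s * (-1) ^ (G.verts + 1))
      (G.verts - 1 - m - npairs G (Asm R S)) (mul_ne_zero hs1 hpow) (by omega)
      (fun j hj => by
        have h1 : D.fPoly.coeff j ≠ 0 := hj
        rw [hcf] at h1
        have h2 := a1 _ (right_ne_zero_of_mul h1)
        linarith)
      (by
        show D.fPoly.coeff _ = _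
        rw [hcf, sub_add_cancel, a2])
      (by
        show D.fPoly.coeff _ = _
        rw [hcf]
        have e1 : 6 * (m : ℤ) - k - 2 * G.verts + 2 - 3 * D.writhe + 4 + 3 * D.writhe =
          6 * (m : ℤ) - k - 2 * G.verts + 2 + 4 := by ring
        rw [e1, a3]
        ring)
    refine ⟨by omega, fun hcl hK => ?_⟩
    obtain ⟨g, hg1, hg2⟩ := exists_colouring G hk hu (Asm R S) (no_loop G hloop) (by omega)
    have hw := Or.writhe_eq Γ R S D hD hcl hK g hg1 hg2
    apply nug_all Γ hΓ S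
    rw [← hG]
    rw [hw] at n3
    omega
  · -- the upper side
    obtain ⟨a0, a1, a2, a3⟩ := side Γ hΓ hk S _ h
    obtain ⟨_, hloop⟩ := rank_ineq G _ (rank_bridgeless Γ hΓ S _ h.dom)
    have hb := bracket_state' Γ hk R S
    rw [← hG] at a0 a1 a2 a3 hb
    set m := ((Asm R S)ᶜ).card with hm
    set P := (T (2 * (m : ℤ) - k) * PP G (Asm R S)ᶜ : ℤ[T;T⁻¹]) with hPdef
    have hinv : ∀ j, ((-T 2 - T (-2) : ℤ[T;T⁻¹]) ^ (c - 1)).coeff (-j) =
        ((-T 2 - T (-2) : ℤ[T;T⁻¹]) ^ (c - 1)).coeff j := by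
      intro j
      have e1 : LaurentPolynomial.invert ((-T 2 - T (-2) : ℤ[T;T⁻¹]) ^ (c - 1)) =
          (-T 2 - T (-2)) ^ (c - 1) := by
        rw [map_pow, map_sub, map_neg, LaurentPolynomial.invert_T, LaurentPolynomial.invert_T,
          neg_neg]
        congr 1
        ring
      conv_rhs => rw [← e1]
      exact (LaurentPolynomial.invert_apply _ _).symm
    obtain ⟨n1, n2, n3⟩ := compare (fun j => D.fPoly.coeff (-j)) (c - 1)
      (fun j => by
        show D.fPoly.coeff (-j) = _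
        rw [hf, hinv])
      (6 * m - k - 2 * G.verts + 2 + 3 * D.writhe) (s * (-1) ^ (G.verts + 1))
      (G.verts - 1 - m - npairs G (Asm R S)ᶜ) (mul_ne_zero hs1 hpow) (by omega)
      (fun j hj => by
        have h1 : D.fPoly.coeff (-j) ≠ 0 := hj
        rw [hcf, hb] at h1
        have h2 := a1 _ (right_ne_zero_of_mul h1)
        linarith)
      (by
        show D.fPoly.coeff _ = _
        rw [hcf, hb]
        have e1 : -(-(6 * (m : ℤ) - k - 2 * G.verts + 2 + 3 * D.writhe) + 3 * D.writhe) =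
          6 * (m : ℤ) - k - 2 * G.verts + 2 := by ring
        rw [e1, a2])
      (by
        show D.fPoly.coeff _ = _
        rw [hcf, hb]
        have e1 : -(-(6 * (m : ℤ) - k - 2 * G.verts + 2 + 3 * D.writhe + 4) + 3 * D.writhe) =
          6 * (m : ℤ) - k - 2 * G.verts + 2 + 4 := by ring
        rw [e1, a3]
        ring)
    refine ⟨by omega, fun hcl hK => ?_⟩
    obtain ⟨g, hg1, hg2⟩ := exists_colouring G hk hu (Asm R S)ᶜ (no_loop G hloop) (by omega)
    have hw := Or.writhe_eq Γ R S D hD hcl hK g hg1 hg2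
    have hcard : (Asm R S).card + m = k := by
      rw [hm, card_add_card_compl, Fintype.card_fin]
    apply nug_all Γ hΓ S
    rw [← hG]
    rw [hw] at n3
    omega

end Pool.Agent.N569.OD
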