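import Pool.Agent.N569.OD.Defs
import Pool.Agent.H891R2.TR.W1
import Pool.Agent.TH561.PK.Defs

set_option autoImplicit false

/-!
The writhe of a knot diagram with a state whose state graph has a proper colouring with two colours.
-/

namespace Pool.Agent.N569.OD

open Finset Pool.Agent.H891R2.Jones Pool.Agent.H891R2.MT Pool.Agent.H891R2.DS
open Pool.Agent.H891R2.TR.W1 (pts lift_list nodup_sig mem_sig)
open Pool.Agent.TH561.PK (Piece IsKnot)

variable {k : ℕ}

namespace Or

theorem arc_start {P : Type} [DecidableEq P] (D : Diagram P) (hc : D.IsClosed) (x : P × P)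
    (y : Crossing P) (hx : x ∈ D.arcs) (hy : y ∈ D.crossings) :
    (if y.underFwd then y.a else y.c) ≠ x.1 ∧ (if y.overFwd then y.b else y.d) ≠ x.1 := by
  have h := (hc x.1).1
  unfold Diagram.starts at h
  rw [List.count_append, List.count_append] at h
  have a0 : 0 < (D.arcs.map Prod.fst).count x.1 :=
    List.count_pos_iff.2 (List.mem_map.2 ⟨x, hx, rfl⟩)
  constructor
  · intro h1
    have a1 : 0 < (D.crossings.map (fun x => if x.underFwd then x.a else x.c)).count x.1 :=
      List.count_pos_iff.2 (List.mem_map.2 ⟨y, hy, h1⟩)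
    omega
  · intro h1
    have a1 : 0 < (D.crossings.map (fun x => if x.overFwd then x.b else x.d)).count x.1 :=
      List.count_pos_iff.2 (List.mem_map.2 ⟨y, hy, h1⟩)
    omega

theorem arc_end {P : Type} [DecidableEq P] (D : Diagram P) (hc : D.IsClosed) (x : P × P)
    (y : Crossing P) (hx : x ∈ D.arcs) (hy : y ∈ D.crossings) :
    (if y.underFwd then y.c else y.a) ≠ x.2 ∧ (if y.overFwd then y.d else y.b) ≠ x.2 := by
  have h := (hc x.2).2
  unfold Diagram.ends at h
  rw [List.count_append, List.count_append] at h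
  have a0 : 0 < (D.arcs.map Prod.snd).count x.2 :=
    List.count_pos_iff.2 (List.mem_map.2 ⟨x, hx, rfl⟩)
  constructor
  · intro h1
    have a1 : 0 < (D.crossings.map (fun x => if x.underFwd then x.c else x.a)).count x.2 :=
      List.count_pos_iff.2 (List.mem_map.2 ⟨y, hy, h1⟩)
    omega
  · intro h1
    have a1 : 0 < (D.crossings.map (fun x => if x.overFwd then x.d else x.b)).count x.2 :=
      List.count_pos_iff.2 (List.mem_map.2 ⟨y, hy, h1⟩)
    omega

theorem forall_left {α β : Type} {r : α → β → Prop} {l : List α} {m : List β}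
    (h : List.Forall₂ r l m) (x : α) (hx : x ∈ l) : ∃ y ∈ m, r x y := by
  induction h with
  | nil => exact absurd hx (List.not_mem_nil)
  | cons h1 _ ih =>
    rw [List.mem_cons] at hx
    rcases hx with rfl | hx
    · exact ⟨_, List.mem_cons_self, h1⟩
    · obtain ⟨y, hy, h2⟩ := ih hx
      exact ⟨y, List.mem_cons_of_mem _ hy, h2⟩

theorem forall_right {α β : Type} {r : α → β → Prop} {l : List α} {m : List β}
    (h : List.Forall₂ r l m) (y : β) (hy : y ∈ m) : ∃ x ∈ l, r x y := by
  induction h with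
  | nil => exact absurd hy (List.not_mem_nil)
  | cons h1 _ ih =>
    rw [List.mem_cons] at hy
    rcases hy with rfl | hy
    · exact ⟨_, List.mem_cons_self, h1⟩
    · obtain ⟨x, hx, h2⟩ := ih hy
      exact ⟨x, List.mem_cons_of_mem _ hx, h2⟩

theorem natAbs_sg (R : Finset (Fin k)) (e : Fin k) : (sg R e).natAbs = 1 := by
  unfold sg
  split_ifs <;> rfl

theorem mem_arcs (Γ : Ribbon k) (n : Fin k → ℤ) (y : Ribbon.Pt n × Ribbon.Pt n) :
    y ∈ (Γ.link n).arcs ↔ ∃ d, y = (Ribbon.left n d, Ribbon.right n (Γ.rot d)) := by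
  unfold Ribbon.link
  simp only [List.mem_flatMap, List.mem_finRange, true_and, List.mem_cons, List.not_mem_nil,
    or_false]
  constructor
  · rintro ⟨e, h | h⟩
    · exact ⟨_, h⟩
    · exact ⟨_, h⟩
  · rintro ⟨⟨e, b⟩, h⟩
    cases b
    · exact ⟨e, Or.inl h⟩
    · exact ⟨e, Or.inr h⟩

/-- the four points of the crossing `e`, of positive kind -/
theorem pts_pos (R : Finset (Fin k)) (e : Fin k) (he : e ∉ R) (j : Fin (sg R e).natAbs) :
    Ribbon.twistCrossing (sg R) e j = (Ribbon.right (sg R) (e, false), Ribbon.left (sg R) (e, true),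
      Ribbon.right (sg R) (e, true), Ribbon.left (sg R) (e, false)) := by
  have h0 : 0 < sg R e := by unfold sg; rw [if_neg he]; norm_num
  have h1 := natAbs_sg R e
  have hj : j.1 = 0 := by have := j.2; omega
  have e1 : j.castSucc = 0 := by ext; simp [hj]
  have e2 : j.succ = Fin.last _ := by ext; simp [hj, h1]
  unfold Ribbon.twistCrossing
  rw [if_pos h0, e1, e2]
  rfl

/-- the four points of the crossing `e`, of negative kind -/
theorem pts_neg (R : Finset (Fin k)) (e : Fin k) (he : e ∈ R) (j : Fin (sg R e).natAbs) :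
    Ribbon.twistCrossing (sg R) e j = (Ribbon.left (sg R) (e, false), Ribbon.right (sg R) (e, false),
      Ribbon.left (sg R) (e, true), Ribbon.right (sg R) (e, true)) := by
  have h0 : ¬ 0 < sg R e := by unfold sg; rw [if_pos he]; norm_num
  have h1 := natAbs_sg R e
  have hj : j.1 = 0 := by have := j.2; omega
  have e1 : j.castSucc = 0 := by ext; simp [hj]
  have e2 : j.succ = Fin.last _ := by ext; simp [hj, h1]
  unfold Ribbon.twistCrossing
  rw [if_neg h0, e1, e2]
  rfl

section

variable (Γ : Ribbon k) (R : Finset (Fin k)) (D : Diagram (Ribbon.Pt (sg R)))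

open Classical in
/-- the direction of the arc at the left side of a dart -/
noncomputable def dir (d : Fin k × Bool) : Bool :=
  decide ((Ribbon.left (sg R) d, Ribbon.right (sg R) (Γ.rot d)) ∈ D.arcs)

theorem dir_true {d : Fin k × Bool} (h : dir Γ R D d = true) :
    (Ribbon.left (sg R) d, Ribbon.right (sg R) (Γ.rot d)) ∈ D.arcs := by
  unfold dir at h
  exact of_decide_eq_true h

theorem dir_false (hD : Orients D (Γ.link (sg R))) {d : Fin k × Bool} (h : dir Γ R D d = false) :
    (Ribbon.right (sg R) (Γ.rot d), Ribbon.left (sg R) d) ∈ D.arcs := by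
  unfold dir at h
  have h1 := of_decide_eq_false h
  obtain ⟨x, hx, h2⟩ := forall_right hD.1 _ ((mem_arcs Γ (sg R) _).2 ⟨d, rfl⟩)
  rcases h2 with h2 | h2
  · rw [h2] at hx
    exact absurd hx h1
  · rw [h2] at hx
    exact hx

/-- the relations at a crossing -/
theorem at_crossing (hD : Orients D (Γ.link (sg R))) (hc : D.IsClosed) (e : Fin k)
    (x : Crossing (Ribbon.Pt (sg R))) (hx : x ∈ D.crossings) (j : Fin (sg R e).natAbs)
    (hp : pts x = Ribbon.twistCrossing (sg R) e j) :
    dir Γ R D (e, true) = !(dir Γ R D (e, false)) ∧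
    dir Γ R D (Γ.rot.symm (e, true)) = !(dir Γ R D (Γ.rot.symm (e, false))) ∧
    (x.sign = if (dir Γ R D (Γ.rot.symm (e, false)) = dir Γ R D (e, false)) ↔ e ∉ R
      then -1 else 1) := by
  have st : ∀ d, dir Γ R D d = true → (if x.underFwd then x.a else x.c) ≠ Ribbon.left (sg R) d ∧
      (if x.overFwd then x.b else x.d) ≠ Ribbon.left (sg R) d := fun d h =>
    arc_start D hc _ x (dir_true Γ R D h) hx
  have en : ∀ d, dir Γ R D d = false → (if x.underFwd then x.c else x.a) ≠ Ribbon.left (sg R) d ∧
      (if x.overFwd then x.d else x.b) ≠ Ribbon.left (sg R) d := fun d h =>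
    arc_end D hc _ x (dir_false Γ R D hD h) hx
  have en' : ∀ d, dir Γ R D (Γ.rot.symm d) = true →
      (if x.underFwd then x.c else x.a) ≠ Ribbon.right (sg R) d ∧
      (if x.overFwd then x.d else x.b) ≠ Ribbon.right (sg R) d := fun d h => by
    have := arc_end D hc _ x (dir_true Γ R D h) hx
    rw [Equiv.apply_symm_apply] at this
    exact this
  have st' : ∀ d, dir Γ R D (Γ.rot.symm d) = false →
      (if x.underFwd then x.a else x.c) ≠ Ribbon.right (sg R) d ∧
      (if x.overFwd then x.b else x.d) ≠ Ribbon.right (sg R) d := fun d h => by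
    have := arc_start D hc _ x (dir_false Γ R D hD h) hx
    rw [Equiv.apply_symm_apply] at this
    exact this
  have s1 := st (e, false)
  have s2 := st (e, true)
  have s3 := en (e, false)
  have s4 := en (e, true)
  have t1 := en' (e, false)
  have t2 := en' (e, true)
  have t3 := st' (e, false)
  have t4 := st' (e, true)
  unfold Crossing.sign
  unfold pts at hp
  by_cases he : e ∈ R
  · rw [pts_neg R e he j] at hp
    simp only [Prod.mk.injEq] at hp
    obtain ⟨ha, hb, hc', hd⟩ := hp
    rw [ha, hb, hc', hd] at s1 s2 s3 s4 t1 t2 t3 t4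
    cases h1 : x.underFwd <;> cases h2 : x.overFwd <;>
      cases h3 : dir Γ R D (e, false) <;> cases h4 : dir Γ R D (e, true) <;>
      cases h5 : dir Γ R D (Γ.rot.symm (e, false)) <;>
      cases h6 : dir Γ R D (Γ.rot.symm (e, true)) <;>
      simp [h1, h2, h3, h4, h5, h6, he] at s1 s2 s3 s4 t1 t2 t3 t4 ⊢
  · rw [pts_pos R e he j] at hp
    simp only [Prod.mk.injEq] at hp
    obtain ⟨ha, hb, hc', hd⟩ := hp
    rw [ha, hb, hc', hd] at s1 s2 s3 s4 t1 t2 t3 t4
    cases h1 : x.underFwd <;> cases h2 : x.overFwd <;>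
      cases h3 : dir Γ R D (e, false) <;> cases h4 : dir Γ R D (e, true) <;>
      cases h5 : dir Γ R D (Γ.rot.symm (e, false)) <;>
      cases h6 : dir Γ R D (Γ.rot.symm (e, true)) <;>
      simp [h1, h2, h3, h4, h5, h6, he] at s1 s2 s3 s4 t1 t2 t3 t4 ⊢

end

end Or

end Pool.Agent.N569.OD
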