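import Pool.Agent.N569.OD.Side

set_option autoImplicit false

/-!
The sets of rank one are the nonempty sets of parallel edges; their alternating sum.
-/

namespace Pool.Agent.N569.OD

open Finset LaurentPolynomial Pool.Agent.H891R2.Jones Pool.Agent.H891R2.MT Pool.Agent.H891R2.DS

variable {k : ℕ}

theorem mk_of_vtx (G : Ribbon k) (S : Finset (Fin k)) {a b : Fin k × Bool} (h : vtx G a = vtx G b) :
    Quot.mk (T3a.rel G S) a = Quot.mk (T3a.rel G S) b :=
  congrArg (Quot.lift (Quot.mk (T3a.rel G S)) (fun _ _ h => Quot.sound (Or.inl h)) :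
    Vert G → Quot (T3a.rel G S)) h

theorem mk_flip (G : Ribbon k) (S : Finset (Fin k)) (e : Fin k) (he : e ∈ S) :
    Quot.mk (T3a.rel G S) (e, false) = Quot.mk (T3a.rel G S) (e, true) :=
  Quot.sound (Or.inr ⟨he, rfl⟩)

theorem no_loop (G : Ribbon k) (hloop : ∀ H : Finset (Fin k), H.Nonempty → G.comps H + 1 ≤ G.verts)
    (e : Fin k) : vtx G (e, false) ≠ vtx G (e, true) := by
  intro h
  have h1 := hloop {e} (singleton_nonempty e)
  rcases T3a.comps_insert G ∅ e with ⟨_, h2⟩ | ⟨h2, _⟩
  · rw [insert_empty_eq, vcomps_empty] at h2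
    omega
  · exact h2 (mk_of_vtx G ∅ h)

theorem mk_of_ends (G : Ribbon k) (S : Finset (Fin k)) (e e' : Fin k) (he : e ∈ S)
    (h : ends G e' = ends G e) :
    Quot.mk (T3a.rel G S) (e', false) = Quot.mk (T3a.rel G S) (e', true) := by
  unfold ends at h
  rw [Sym2.eq_iff] at h
  rcases h with ⟨h1, h2⟩ | ⟨h1, h2⟩
  · rw [mk_of_vtx G S h1, mk_of_vtx G S h2]
    exact mk_flip G S e he
  · rw [mk_of_vtx G S h1, mk_of_vtx G S h2]
    exact (mk_flip G S e he).symm

/-- sets of parallel edges have rank one -/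
theorem comps_parallel (G : Ribbon k) (e₀ : Fin k) (F : Finset (Fin k))
    (hF : ∀ e ∈ F, ends G e = ends G e₀) : G.comps (insert e₀ F) = G.comps {e₀} := by
  induction F using Finset.induction_on with
  | empty => rfl
  | insert e F _ ih =>
    have h1 := ih (fun x hx => hF x (mem_insert_of_mem hx))
    have h2 := mk_of_ends G (insert e₀ F) e₀ e (mem_insert_self _ _) (hF e (mem_insert_self _ _))
    rw [insert_comm]
    rcases T3a.comps_insert G (insert e₀ F) e with ⟨_, h3⟩ | ⟨h3, _⟩
    · rw [h3, h1]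
    · exact absurd h2 h3

/-- the edges of a set of rank one are parallel -/
theorem ends_rank_one (G : Ribbon k)
    (hloop : ∀ H : Finset (Fin k), H.Nonempty → G.comps H + 1 ≤ G.verts)
    (F : Finset (Fin k)) (hF : G.comps F + 1 = G.verts) (e₀ e : Fin k) (he₀ : e₀ ∈ F) (he : e ∈ F) :
    ends G e = ends G e₀ := by
  classical
  have h1 := comps_single G hloop F hF {e₀} (singleton_subset_iff.2 he₀) (singleton_nonempty _)
  have h2 := comps_single G hloop F hF (insert e {e₀})
    (insert_subset he (singleton_subset_iff.2 he₀)) (insert_nonempty _ _)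
  have h3 : Quot.mk (T3a.rel G {e₀}) (e, false) = Quot.mk (T3a.rel G {e₀}) (e, true) := by
    rcases T3a.comps_insert G {e₀} e with ⟨h3, _⟩ | ⟨_, h3⟩
    · exact h3
    · omega
  let ψ : Fin k × Bool → Vert G := fun x =>
    if vtx G x = vtx G (e₀, true) then vtx G (e₀, false) else vtx G x
  have hψ : ∀ x y, T3a.rel G {e₀} x y → ψ x = ψ y := by
    rintro ⟨x1, x2⟩ y (h | ⟨h4, rfl⟩)
    · have : vtx G (x1, x2) = vtx G y := Quot.sound h
      simp only [ψ, this]
    · rw [mem_singleton] at h4
      simp only at h4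
      subst h4
      cases x2
      · simp only [ψ, Pool.Agent.H891R2.MT.flip, Bool.not_false, if_true]
        split_ifs <;> rfl
      · simp only [ψ, Pool.Agent.H891R2.MT.flip, Bool.not_true, if_true]
        split_ifs <;> rfl
  have h4 : ψ (e, false) = ψ (e, true) :=
    congrArg (Quot.lift ψ hψ : Quot (T3a.rel G {e₀}) → Vert G) h3
  have h5 := no_loop G hloop e
  unfold ends
  rw [Sym2.eq_iff]
  simp only [ψ] at h4
  by_cases h6 : vtx G (e, false) = vtx G (e₀, true)
  · right
    have h7 : vtx G (e, true) ≠ vtx G (e₀, true) := fun h => h5 (h6.trans h.symm)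
    rw [if_pos h6, if_neg h7] at h4
    exact ⟨h6, h4.symm⟩
  · rw [if_neg h6] at h4
    by_cases h7 : vtx G (e, true) = vtx G (e₀, true)
    · rw [if_pos h7] at h4
      exact Or.inl ⟨h4, h7⟩
    · rw [if_neg h7] at h4
      exact absurd h4 h5

open Classical in
/-- the alternating sum over the sets of rank one -/
theorem sum_rank_one (G : Ribbon k) (M : Finset (Fin k))
    (hloop : ∀ H : Finset (Fin k), H.Nonempty → G.comps H + 1 ≤ G.verts) :
    ∑ F ∈ (Mᶜ).powerset.filter (fun F => G.comps F + 1 = G.verts), (-1 : ℤ) ^ F.card =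
      - (npairs G M : ℤ) := by
  have h1 : (Mᶜ).powerset.filter (fun F => G.comps F + 1 = G.verts) =
      ((Mᶜ).image (ends G)).biUnion
        (fun s => ((Mᶜ).filter (fun e => ends G e = s)).powerset.erase ∅) := by
    ext F
    simp only [mem_filter, mem_powerset, mem_biUnion, mem_image, mem_erase, ne_eq]
    constructor
    · rintro ⟨hFM, hF⟩
      have hne : F ≠ ∅ := by
        rintro rfl
        rw [vcomps_empty] at hF
        omega
      obtain ⟨e₀, he₀⟩ := nonempty_iff_ne_empty.2 hne
      refine ⟨ends G e₀, ⟨e₀, hFM he₀, rfl⟩, hne, ?_⟩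
      intro e he
      rw [mem_filter]
      exact ⟨hFM he, ends_rank_one G hloop F hF e₀ e he₀ he⟩
    · rintro ⟨s, _, hne, hF⟩
      obtain ⟨e₀, he₀⟩ := nonempty_iff_ne_empty.2 hne
      have h2 : ∀ e ∈ F, ends G e = s := fun e he => (mem_filter.1 (hF he)).2
      refine ⟨fun e he => (mem_filter.1 (hF he)).1, ?_⟩
      have h3 := comps_parallel G e₀ F (fun e he => (h2 e he).trans (h2 e₀ he₀).symm)
      rw [insert_eq_of_mem he₀] at h3
      rw [h3]
      have h4 := hloop {e₀} (singleton_nonempty _)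
      rcases T3a.comps_insert G ∅ e₀ with ⟨_, h5⟩ | ⟨_, h5⟩
      · rw [insert_empty_eq, vcomps_empty] at h5
        omega
      · rw [insert_empty_eq, vcomps_empty] at h5
        omega
  rw [h1, sum_biUnion]
  · have h2 : ∀ s ∈ (Mᶜ).image (ends G),
        ∑ F ∈ ((Mᶜ).filter (fun e => ends G e = s)).powerset.erase ∅, (-1 : ℤ) ^ F.card = -1 := by
      intro s hs
      rw [mem_image] at hs
      obtain ⟨e, he, hes⟩ := hs
      have h3 := Finset.sum_powerset_neg_one_pow_card_of_nonempty
        (x := (Mᶜ).filter (fun e => ends G e = s)) ⟨e, mem_filter.2 ⟨he, hes⟩⟩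
      rw [← Finset.add_sum_erase _ _ (empty_mem_powerset _)] at h3
      rw [card_empty, pow_zero] at h3
      linarith
    rw [sum_congr rfl h2, sum_const, npairs]
    simp
  · intro s _ s' _ hss
    rw [Function.onFun, disjoint_left]
    intro F hF hF'
    rw [mem_erase, mem_powerset] at hF hF'
    obtain ⟨e, he⟩ := nonempty_iff_ne_empty.2 hF.1
    exact hss ((mem_filter.1 (hF.2 he)).2.symm.trans (mem_filter.1 (hF'.2 he)).2)

end Pool.Agent.N569.OD
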