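import Pool.Agent.N569.OD.Defs
import Pool.Agent.H891R2.DS.All

set_option autoImplicit false

/-!
The rank inequality for strongly dominated states (adapted from D5 and D6 of `Pool.Agent.H891R2.DS`).
-/

namespace Pool.Agent.N569.OD

open Finset LaurentPolynomial Pool.Agent.H891R2.Jones Pool.Agent.H891R2.MT Pool.Agent.H891R2.DS
open Pool.Agent.H891R2.CA.C5a (rel comps_eq comps_empty comps_insert_of_eq cls mem_cls cls_rot)
open Pool.Agent.H891R2.DS.D5 (XX mem_bd XX_sub count closed')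

variable {k : ℕ}

theorem SDom.dom {G : Ribbon k} {M : Finset (Fin k)} (h : SDom G M) : Dom G M :=
  fun X hX hE => (h X hX hE).1

/-- one side (black or white), with an exceptional edge -/
theorem side3 (Γ₀ : Ribbon k) (S₀ H M : Finset (Fin k))
    (hd : ∀ e ∈ H, e ∈ S₀ →
      Quot.mk (rel Γ₀ (S₀ \ H)) (e, false) ≠ Quot.mk (rel Γ₀ (S₀ \ H)) (e, true))
    (hdom : ∀ w, (XX Γ₀ S₀ H w).Nonempty →
      (XX Γ₀ S₀ H w ∩ M).card + 2 ≤ (XX Γ₀ S₀ H w \ M).card ∧
        ((XX Γ₀ S₀ H w ∩ M).Nonempty → (XX Γ₀ S₀ H w ∩ M).card + 3 ≤ (XX Γ₀ S₀ H w \ M).card))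
    (hne : (H ∩ S₀ ∩ M).Nonempty) :
    (H ∩ S₀ ∩ M).card + Γ₀.comps (S₀ \ H) + 2 ≤ ((H ∩ S₀) \ M).card + Γ₀.comps S₀ := by
  classical
  have : Fintype (Quot (rel Γ₀ (S₀ \ H))) := Fintype.ofFinite _
  have : Fintype (Quot (rel Γ₀ S₀)) := Fintype.ofFinite _
  obtain ⟨E, hE⟩ : ∃ E : Finset (Quot (rel Γ₀ (S₀ \ H))),
      E = univ.filter (fun w => XX Γ₀ S₀ H w = ∅) := ⟨_, rfl⟩
  have hmemE : ∀ w, w ∈ E ↔ XX Γ₀ S₀ H w = ∅ := by intro w; rw [hE]; simp
  -- the map to the classes of `S₀`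
  have hex : ∀ w : Quot (rel Γ₀ (S₀ \ H)), ∃ d, Quot.mk (rel Γ₀ (S₀ \ H)) d = w :=
    fun w => Quot.exists_rep w
  choose r hr using hex
  have hrm : ∀ w, r w ∈ cls Γ₀ (S₀ \ H) w := fun w => by rw [mem_cls]; exact hr w
  have hinj : Set.InjOn (fun w => Quot.mk (rel Γ₀ S₀) (r w)) (E : Set (Quot (rel Γ₀ (S₀ \ H)))) := by
    intro w hw w' _ h
    have h1 := (closed' Γ₀ S₀ H w ((hmemE w).1 hw) (r w) (r w') h).1 (hrm w)
    rw [mem_cls, hr] at h1
    exact h1.symm
  have hcard : (E.image (fun w => Quot.mk (rel Γ₀ S₀) (r w))).card = E.card :=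
    card_image_of_injOn hinj
  have hcomps : Γ₀.comps S₀ = (univ : Finset (Quot (rel Γ₀ S₀))).card := by
    rw [comps_eq, Nat.card_eq_fintype_card, card_univ]
  obtain ⟨e0, he0⟩ := hne
  rw [mem_inter, mem_inter] at he0
  obtain ⟨⟨he0H, he0S⟩, he0M⟩ := he0
  have hlt : E.card + 1 ≤ Γ₀.comps S₀ := by
    rw [← hcard, hcomps]
    apply card_lt_card
    rw [ssubset_iff_of_subset (subset_univ _)]
    refine ⟨Quot.mk (rel Γ₀ S₀) (e0, false), mem_univ _, ?_⟩
    intro hmem
    rw [mem_image] at hmem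
    obtain ⟨w, hw, hwe⟩ := hmem
    have hw0 := (hmemE w).1 hw
    have h1 := (closed' Γ₀ S₀ H w hw0 (r w) (e0, false) hwe).1 (hrm w)
    have h2 : e0 ∉ bd (cls Γ₀ (S₀ \ H) w) := by
      intro h5
      have h6 : e0 ∈ XX Γ₀ S₀ H w := mem_inter.2 ⟨h5, he0S⟩
      rw [hw0] at h6
      exact notMem_empty e0 h6
    rw [mem_bd, not_not] at h2
    have h3 := h2.1 h1
    rw [mem_cls] at h1 h3
    exact hd e0 he0H he0S (h1.trans h3.symm)
  -- two regions at the exceptional edge
  obtain ⟨F, hF⟩ : ∃ F : Finset (Quot (rel Γ₀ (S₀ \ H))),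
      F = univ.filter (fun w => (XX Γ₀ S₀ H w ∩ M).Nonempty) := ⟨_, rfl⟩
  have hmemF : ∀ w, w ∈ F ↔ (XX Γ₀ S₀ H w ∩ M).Nonempty := by intro w; rw [hF]; simp
  have hF2 : 2 ≤ F.card := by
    have hne2 := hd e0 he0H he0S
    have hsub : ({Quot.mk (rel Γ₀ (S₀ \ H)) (e0, false), Quot.mk (rel Γ₀ (S₀ \ H)) (e0, true)} :
        Finset (Quot (rel Γ₀ (S₀ \ H)))) ⊆ F := by
      intro w hw
      rw [mem_insert, mem_singleton] at hw
      rw [hmemF]
      refine ⟨e0, mem_inter.2 ⟨?_, he0M⟩⟩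
      unfold XX
      rw [mem_inter, mem_bd, mem_cls, mem_cls]
      refine ⟨?_, he0S⟩
      rcases hw with rfl | rfl
      · exact fun h => hne2 (h.1 rfl).symm
      · exact fun h => hne2 (h.2 rfl)
    have h7 := card_le_card hsub
    rwa [card_pair hne2] at h7
  have hsum : ∑ w : Quot (rel Γ₀ (S₀ \ H)), ((XX Γ₀ S₀ H w ∩ M).card + 2 + if w ∈ F then 1 else 0) ≤
      ∑ w : Quot (rel Γ₀ (S₀ \ H)), ((XX Γ₀ S₀ H w \ M).card + if w ∈ E then 2 else 0) := by
    apply sum_le_sum
    intro w _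
    by_cases hw : XX Γ₀ S₀ H w = ∅
    · have hwF : w ∉ F := by
        rw [hmemF, hw, empty_inter]
        exact not_nonempty_empty
      rw [if_pos ((hmemE w).2 hw), if_neg hwF, hw]; simp
    · rw [if_neg (fun h => hw ((hmemE w).1 h))]
      have h8 := hdom w (nonempty_iff_ne_empty.2 hw)
      by_cases hwF : w ∈ F
      · rw [if_pos hwF]
        have := h8.2 ((hmemF w).1 hwF)
        omega
      · rw [if_neg hwF]
        have := h8.1
        omega
  have e1 : ∀ Y : Finset (Fin k), Y ∩ Mᶜ = Y \ M := fun Y => (sdiff_eq_inter_compl Y M).symm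
  have h4 : ∑ w : Quot (rel Γ₀ (S₀ \ H)), (XX Γ₀ S₀ H w \ M).card = 2 * ((H ∩ S₀) \ M).card := by
    have := count Γ₀ S₀ H Mᶜ hd
    rw [e1] at this
    rw [← this]
    exact sum_congr rfl fun w _ => by rw [e1]
  have h5 : ∑ w : Quot (rel Γ₀ (S₀ \ H)), (if w ∈ E then 2 else 0) = 2 * E.card := by
    rw [← sum_filter, sum_const, smul_eq_mul, mul_comm]
    congr 2
    ext w
    simp
  have h6 : ∑ w : Quot (rel Γ₀ (S₀ \ H)), (if w ∈ F then 1 else 0) = F.card := by
    rw [← sum_filter, sum_const, smul_eq_mul, mul_one]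
    congr 1
    ext w
    simp
  rw [sum_add_distrib, sum_add_distrib, sum_add_distrib, count Γ₀ S₀ H M hd, h4, h5, h6, sum_const,
    card_univ, smul_eq_mul, ← Nat.card_eq_fintype_card, ← comps_eq] at hsum
  omega

/-- subgraphs without bridges which contain an exceptional edge -/
theorem rank_bridgeless3 (Γ : Ribbon k) (hΓ : Γ.Planar) (S M : Finset (Fin k))
    (hM : SDom (stateGraph Γ S) M) (H : Finset (Fin k)) (hne : (H ∩ M).Nonempty)
    (hH : ∀ e ∈ H, (stateGraph Γ S).comps (H.erase e) = (stateGraph Γ S).comps H) :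
    (H ∩ M).card + H.card + (stateGraph Γ S).comps H + 2 ≤
      (H \ M).card + (stateGraph Γ S).verts := by
  classical
  have hR := regions Γ hΓ S
  have h0 := hR ∅
  rw [sdiff_empty, sdiff_empty, card_empty, comps_empty] at h0
  have hRH := hR H
  have hHpos : 0 < H.card := card_pos.2 (hne.mono inter_subset_left)
  -- black side
  have hdb : ∀ e ∈ H, e ∈ S →
      Quot.mk (rel Γ (S \ H)) (e, false) ≠ Quot.mk (rel Γ (S \ H)) (e, true) := by
    intro e he heS h
    have h2 := comps_insert_of_eq Γ (S \ H) e h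
    have h3 : insert e (S \ H) = S \ H.erase e := by
      ext x
      simp only [mem_insert, mem_sdiff, mem_erase, not_and, ne_eq]
      constructor
      · rintro (rfl | ⟨h4, h5⟩)
        · exact ⟨heS, fun h6 => absurd rfl h6⟩
        · exact ⟨h4, fun _ => h5⟩
      · rintro ⟨h4, h5⟩
        by_cases h6 : x = e
        · exact Or.inl h6
        · exact Or.inr ⟨h4, h5 h6⟩
    have h4 : Sᶜ \ H.erase e = Sᶜ \ H := by
      ext x
      simp only [mem_sdiff, mem_compl, mem_erase, not_and, ne_eq]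
      constructor
      · rintro ⟨h4, h5⟩
        exact ⟨h4, h5 (fun h6 => h4 (h6 ▸ heS))⟩
      · rintro ⟨h4, h5⟩
        exact ⟨h4, fun _ => h5⟩
    have h5 := hR (H.erase e)
    rw [hH e he, card_erase_of_mem he, ← h3, h2, h4] at h5
    omega
  -- white side
  have hdw : ∀ e ∈ H, e ∈ Sᶜ →
      Quot.mk (rel (stateGraph Γ univ) (Sᶜ \ H)) (e, false) ≠
        Quot.mk (rel (stateGraph Γ univ) (Sᶜ \ H)) (e, true) := by
    intro e he heS h
    have h2 := comps_insert_of_eq (stateGraph Γ univ) (Sᶜ \ H) e h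
    rw [mem_compl] at heS
    have h3 : insert e (Sᶜ \ H) = Sᶜ \ H.erase e := by
      ext x
      simp only [mem_insert, mem_sdiff, mem_erase, mem_compl, not_and, ne_eq]
      constructor
      · rintro (rfl | ⟨h4, h5⟩)
        · exact ⟨heS, fun h6 => absurd rfl h6⟩
        · exact ⟨h4, fun _ => h5⟩
      · rintro ⟨h4, h5⟩
        by_cases h6 : x = e
        · exact Or.inl h6
        · exact Or.inr ⟨h4, h5 h6⟩
    have h4 : S \ H.erase e = S \ H := by
      ext x
      simp only [mem_sdiff, mem_erase, not_and, ne_eq]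
      constructor
      · rintro ⟨h4, h5⟩
        exact ⟨h4, h5 (fun h6 => heS (h6 ▸ h4))⟩
      · rintro ⟨h4, h5⟩
        exact ⟨h4, fun _ => h5⟩
    have h5 := hR (H.erase e)
    rw [hH e he, card_erase_of_mem he, ← h3, h2, h4] at h5
    omega
  have hev : ∀ w, EvenSet (stateGraph Γ S) (XX Γ S H w) := fun w =>
    even_region Γ S (cls Γ (S \ H) w) (cls_rot Γ (S \ H) w)
  have hev' : ∀ w, EvenSet (stateGraph Γ S) (XX (stateGraph Γ univ) Sᶜ H w) := fun w => by
    have := even_region (stateGraph Γ univ) Sᶜ (cls (stateGraph Γ univ) (Sᶜ \ H) w)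
      (cls_rot (stateGraph Γ univ) (Sᶜ \ H) w)
    rw [sg_dual] at this
    exact this
  have hb := D5.side Γ S H M hdb (fun w hw => (hM _ hw (hev w)).1)
  have hw := D5.side (stateGraph Γ univ) Sᶜ H M hdw (fun w hw => (hM _ hw (hev' w)).1)
  have hb3 := side3 Γ S H M hdb (fun w hw => hM _ hw (hev w))
  have hw3 := side3 (stateGraph Γ univ) Sᶜ H M hdw (fun w hw => hM _ hw (hev' w))
  -- cardinalities
  have hc1 : (H ∩ M).card = (H ∩ S ∩ M).card + (H ∩ Sᶜ ∩ M).card := by
    rw [← card_union_of_disjoint]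
    · congr 1
      ext x
      simp only [mem_inter, mem_union, mem_compl]
      tauto
    · rw [disjoint_left]
      intro x hx hx'
      simp only [mem_inter, mem_compl] at hx hx'
      tauto
  have hc2 : (H \ M).card = ((H ∩ S) \ M).card + ((H ∩ Sᶜ) \ M).card := by
    rw [← card_union_of_disjoint]
    · congr 1
      ext x
      simp only [mem_inter, mem_union, mem_compl, mem_sdiff]
      tauto
    · rw [disjoint_left]
      intro x hx hx'
      simp only [mem_inter, mem_compl, mem_sdiff] at hx hx'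
      tauto
  have hor : (H ∩ S ∩ M).Nonempty ∨ (H ∩ Sᶜ ∩ M).Nonempty := by
    obtain ⟨e, he⟩ := hne
    rw [mem_inter] at he
    by_cases h : e ∈ S
    · exact Or.inl ⟨e, mem_inter.2 ⟨mem_inter.2 ⟨he.1, h⟩, he.2⟩⟩
    · exact Or.inr ⟨e, mem_inter.2 ⟨mem_inter.2 ⟨he.1, mem_compl.2 h⟩, he.2⟩⟩
  rcases hor with h | h
  · have h6 := hb3 h
    have h7 := hw.1
    omega
  · have h6 := hb.1
    have h7 := hw3 h
    omega

/-- the rank inequality for the subgraphs which contain exceptional edges, none of them a bridge -/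
theorem rank_ineq3 (G : Ribbon k) (M : Finset (Fin k))
    (hb : ∀ H : Finset (Fin k), (H ∩ M).Nonempty → (∀ e ∈ H, G.comps (H.erase e) = G.comps H) →
      (H ∩ M).card + H.card + G.comps H + 2 ≤ (H \ M).card + G.verts) :
    ∀ H : Finset (Fin k), (H ∩ M).Nonempty →
      (∀ e ∈ H ∩ M, G.comps (H.erase e) = G.comps H) →
      G.comps H + 2 * (H ∩ M).card + 2 ≤ G.verts := by
  classical
  intro H hne hH
  induction hn : H.card using Nat.strong_induction_on generalizing H with
  | _ n ih =>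
    by_cases hb1 : ∃ b ∈ H, G.comps (H.erase b) = G.comps H + 1
    · obtain ⟨b, hbH, hb1⟩ := hb1
      have hbR : b ∉ M := by
        intro hbR
        have := hH b (mem_inter.2 ⟨hbH, hbR⟩)
        omega
      have hint : (H.erase b) ∩ M = H ∩ M := by
        ext x
        simp only [mem_inter, mem_erase]
        constructor
        · rintro ⟨⟨_, h1⟩, h2⟩
          exact ⟨h1, h2⟩
        · rintro ⟨h1, h2⟩
          exact ⟨⟨fun hxb => hbR (hxb ▸ h2), h1⟩, h2⟩
      have hlt : (H.erase b).card < n := by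
        rw [← hn]
        exact card_erase_lt_of_mem hbH
      have h1 := ih (H.erase b).card hlt (H.erase b) (by rw [hint]; exact hne) (by
        rw [hint]
        intro e he
        have heb : b ≠ e := fun h => hbR (h ▸ (mem_inter.1 he).2)
        have h2 := Pool.Agent.H891R2.CA.C6.bridge_mono G H (H.erase e) b (mem_erase.2 ⟨heb, hbH⟩)
          (erase_subset _ _) hb1
        rw [erase_right_comm, h2, hH e he, hb1]) rfl
      rw [hint] at h1
      omega
    · push Not at hb1
      have h0 : ∀ e ∈ H, G.comps (H.erase e) = G.comps H := by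
        intro e he
        have h1 := T3a.comps_erase G H e he
        have h2 := hb1 e he
        omega
      have h3 := hb H hne h0
      have h4 := card_inter_add_card_sdiff H M
      omega

end Pool.Agent.N569.OD
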