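import Pool.Agent.N569.OD.Pairs
import Pool.Agent.N569.OD.Rank

set_option autoImplicit false

/-!
The two lowest coefficients of the state sum.
-/

namespace Pool.Agent.N569.OD

open Finset LaurentPolynomial Pool.Agent.H891R2.Jones Pool.Agent.H891R2.MT Pool.Agent.H891R2.DS
open Pool.Agent.H891R2.DS.D10 (coeff_mul_T coeff_d_pow)

variable {k : ℕ}

theorem coeff_add' (f g : ℤ[T;T⁻¹]) (a : ℤ) : (f + g).coeff a = f.coeff a + g.coeff a := by
  rw [AddMonoidAlgebra.coeff_add, Finsupp.add_apply]

theorem coeff_sum' {ι : Type} (s : Finset ι) (f : ι → ℤ[T;T⁻¹]) (a : ℤ) :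
    (∑ i ∈ s, f i).coeff a = ∑ i ∈ s, (f i).coeff a := by
  rw [AddMonoidAlgebra.coeff_sum, Finsupp.finsetSum_apply]

theorem coeff_neg_one_pow_mul (n : ℕ) (f : ℤ[T;T⁻¹]) (a : ℤ) :
    ((-1) ^ n * f).coeff a = (-1) ^ n * f.coeff a := by
  have : ((-1 : ℤ[T;T⁻¹]) ^ n) = C ((-1) ^ n) := by
    rw [map_pow, map_neg, map_one]
  rw [this, ← LaurentPolynomial.smul_eq_C_mul, AddMonoidAlgebra.coeff_smul, Finsupp.smul_apply,
    smul_eq_mul]

theorem coeff_d_pow2 (j : ℕ) :
    ((-T 2 - T (-2) : ℤ[T;T⁻¹]) ^ j).coeff (-(2 * j) + 4) = (-1) ^ j * j := by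
  induction j with
  | zero =>
    rw [pow_zero]
    have := C_apply (R := ℤ) 1 4
    rw [map_one] at this
    simp [this]
  | succ j ih =>
    have h1 : (-T 2 - T (-2) : ℤ[T;T⁻¹]) ^ (j + 1) =
        -((-T 2 - T (-2)) ^ j * T 2) + -((-T 2 - T (-2)) ^ j * T (-2)) := by ring
    rw [h1, AddMonoidAlgebra.coeff_add, Finsupp.add_apply, AddMonoidAlgebra.coeff_neg,
      AddMonoidAlgebra.coeff_neg, Finsupp.neg_apply, Finsupp.neg_apply, coeff_mul_T, coeff_mul_T]
    have h2 : (-(2 * ((j + 1 : ℕ) : ℤ)) + 4 - 2) = -(2 * j) := by push_cast; ring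
    have h3 : (-(2 * ((j + 1 : ℕ) : ℤ)) + 4 - -2) = -(2 * j) + 4 := by push_cast; ring
    rw [h2, h3, ih, coeff_d_pow, pow_succ]
    push_cast
    ring

/-- the two lowest coefficients -/
theorem second (G : Ribbon k) (hk : 0 < k) (M : Finset (Fin k))
    (hrank : ∀ H : Finset (Fin k), (H ∩ M).Nonempty →
      (∀ e ∈ H ∩ M, G.comps (H.erase e) = G.comps H) → G.comps H + 2 * (H ∩ M).card + 2 ≤ G.verts)
    (hloop : ∀ H : Finset (Fin k), H.Nonempty → G.comps H + 1 ≤ G.verts)
    (hcurv : ∀ F : Finset (Fin k), G.comps F + 1 = G.verts → G.curves F + 2 = F.card + G.verts) :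
    M.card + 1 ≤ G.verts ∧
    GE (PP G M) (4 * M.card - 2 * G.verts + 2) ∧
      (PP G M).coeff (4 * M.card - 2 * G.verts + 2) = (-1) ^ (G.verts + 1) ∧
      (PP G M).coeff (4 * M.card - 2 * G.verts + 6) =
        (-1) ^ (G.verts + 1) * (G.verts - 1 - M.card - npairs G M) := by
  classical
  have hrank1 : ∀ H : Finset (Fin k), (H ∩ M).Nonempty →
      (∀ e ∈ H ∩ M, G.comps (H.erase e) = G.comps H) →
        G.comps H + 2 * (H ∩ M).card + 1 ≤ G.verts := fun H h1 h2 => by
    have := hrank H h1 h2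
    omega
  obtain ⟨hv, hE⟩ := blk_empty G hk M hrank1
  have hge := (lowest G hk M hrank1 hloop).1
  refine ⟨hv, hge, ?_, ?_⟩
  · -- the lowest coefficient
    rw [D10.PP_eq, coeff_sum', ← Finset.add_sum_erase _ _ (Finset.empty_mem_powerset _)]
    have h1 : ∀ F ∈ (Mᶜ).powerset.erase ∅,
        (D10.blk G M F).coeff (4 * M.card - 2 * G.verts + 2) = 0 := by
      intro F hF
      obtain ⟨h2, h3⟩ := Finset.mem_erase.1 hF
      rw [Finset.mem_powerset] at h3
      have h4 := blk_ge G hk M F (by
        rw [Finset.disjoint_left]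
        intro x hx
        exact Finset.mem_compl.1 (h3 hx)) (Finset.nonempty_iff_ne_empty.2 h2) hrank1 hloop
      by_contra hcon
      have := h4 _ hcon
      omega
    rw [Finset.sum_eq_zero h1, add_zero]
    change (blk G M ∅).coeff _ = _
    set N := G.verts - 1 - M.card with hN
    rw [hE, mul_assoc, coeff_neg_one_pow_mul, mul_comm (T _), coeff_mul_T]
    have h4 : (4 * (M.card : ℤ) - 2 * G.verts + 2 - 2 * M.card) = -(2 * N) := by omega
    rw [h4, coeff_d_pow, ← pow_add]
    have h5 : G.verts + 1 = M.card + N + 2 := by omega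
    rw [h5, pow_add _ (M.card + N) 2]
    norm_num
  · -- the second coefficient
    rw [D10.PP_eq, coeff_sum']
    have h1 : ∀ F ∈ (Mᶜ).powerset,
        (D10.blk G M F).coeff (4 * M.card - 2 * G.verts + 6) =
          (if F = ∅ then (-1) ^ (G.verts + 1) * ((G.verts : ℤ) - 1 - M.card) else 0) +
          (if G.comps F + 1 = G.verts then (-1) ^ (G.verts + 1) * (-1 : ℤ) ^ F.card else 0) := by
      intro F hF
      rw [Finset.mem_powerset] at hF
      have hd : Disjoint F M := by
        rw [Finset.disjoint_left]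
        intro x hx
        exact Finset.mem_compl.1 (hF hx)
      change (blk G M F).coeff _ = _
      by_cases hF0 : F = ∅
      · subst hF0
        have h2 : G.comps ∅ + 1 ≠ G.verts := by rw [vcomps_empty]; omega
        rw [if_pos rfl, if_neg h2, add_zero]
        set N := G.verts - 1 - M.card with hN
        rw [hE, mul_assoc, coeff_neg_one_pow_mul, mul_comm (T _), coeff_mul_T]
        have h4 : (4 * (M.card : ℤ) - 2 * G.verts + 6 - 2 * M.card) = -(2 * N) + 4 := by omega
        have h5 : G.verts + 1 = M.card + N + 2 := by omega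
        have h6 : (G.verts : ℤ) - 1 - M.card = N := by omega
        rw [h4, coeff_d_pow2, h5, h6, pow_add _ (M.card + N) 2, pow_add]
        ring
      · rw [if_neg hF0, zero_add]
        have hne := Finset.nonempty_iff_ne_empty.2 hF0
        by_cases h2 : G.comps F + 1 = G.verts
        · rw [if_pos h2]
          obtain ⟨h3, h4⟩ := blk_bridges G hk M F hd (bridges_rank_one G M F hd h2 hrank)
          have h5 := hcurv F h2
          set J := G.curves F - 1 - M.card with hJ
          rw [h4, ← mul_assoc, ← mul_assoc, mul_comm (T _ : ℤ[T;T⁻¹]) ((-1) ^ M.card),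
            mul_assoc ((-1) ^ M.card : ℤ[T;T⁻¹]), ← T_add, mul_assoc, coeff_neg_one_pow_mul,
            mul_comm (T _), coeff_mul_T]
          have h6 : (4 * (M.card : ℤ) - 2 * G.verts + 6 - (2 * F.card + 2 * M.card)) =
              -(2 * J) := by omega
          rw [h6, coeff_d_pow, ← pow_add, ← pow_add]
          have h7 : G.verts + 1 + F.card = M.card + J + 4 := by omega
          rw [h7, pow_add _ (M.card + J) 4]
          norm_num
        · rw [if_neg h2]
          have h3 := hloop F hne
          have h4 := blk_ge2 G hk M F hd (by omega) hrank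
          by_contra hcon
          have := h4 _ hcon
          omega
    rw [Finset.sum_congr rfl h1, Finset.sum_add_distrib, Finset.sum_ite_eq' _ ∅,
      if_pos (Finset.empty_mem_powerset _), ← Finset.sum_filter, ← Finset.mul_sum,
      sum_rank_one G M hloop]
    ring

end Pool.Agent.N569.OD
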