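import Pool.Agent.N569.OD.Blk

set_option autoImplicit false

/-!
Subgraphs of rank one of a state graph: they lie on one side, and they are plane.
-/

namespace Pool.Agent.N569.OD

open Finset LaurentPolynomial Pool.Agent.H891R2.Jones Pool.Agent.H891R2.MT Pool.Agent.H891R2.DS

variable {k : ℕ}

/-- a set of kept bands is plane -/
theorem curves_sub (Γ : Ribbon k) (hΓ : Γ.Planar) (S H : Finset (Fin k)) (hH : H ⊆ S) :
    ((stateGraph Γ S).curves H : ℤ) =
      H.card - (stateGraph Γ S).verts + 2 * (stateGraph Γ S).comps H := by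
  have e1 : symmDiff S H = S \ H := by
    ext x
    simp only [mem_symmDiff, mem_sdiff]
    constructor
    · rintro (h | h)
      · exact h
      · exact absurd (hH h.1) h.2
    · intro h
      exact Or.inl h
  have e2 : Sᶜ \ H = Sᶜ := by
    ext x
    simp only [mem_sdiff, mem_compl]
    exact ⟨fun h => h.1, fun h => ⟨h, fun h' => h (hH h')⟩⟩
  have h1 := sg_curves Γ S H
  rw [e1] at h1
  have h2 := T2.curves_eq Γ hΓ (S \ H)
  have h3 := T2.curves_eq Γ hΓ S
  have h4 := sg_verts Γ S
  have h5 := regions Γ hΓ S H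
  have h6 := regions Γ hΓ S ∅
  rw [e2] at h5
  rw [sdiff_empty, sdiff_empty, card_empty, vcomps_empty] at h6
  have h7 : (S \ H).card + H.card = S.card := card_sdiff_add_card_eq_card hH
  rw [h1, h2]
  have h8 : ((S \ H).card : ℤ) + H.card = S.card := by exact_mod_cast h7
  rw [← h4] at h3
  omega

theorem curves_one_side (Γ : Ribbon k) (hΓ : Γ.Planar) (S H : Finset (Fin k))
    (hH : H ⊆ S ∨ H ⊆ Sᶜ) :
    ((stateGraph Γ S).curves H : ℤ) =
      H.card - (stateGraph Γ S).verts + 2 * (stateGraph Γ S).comps H := by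
  rcases hH with h | h
  · exact curves_sub Γ hΓ S H h
  · have h1 := curves_sub (stateGraph Γ univ) (planar_dual Γ hΓ) Sᶜ H h
    rw [sg_dual] at h1
    exact h1

/-- the edges of a set of rank one have rank one -/
theorem comps_single (G : Ribbon k) (hloop : ∀ H : Finset (Fin k), H.Nonempty → G.comps H + 1 ≤ G.verts)
    (F : Finset (Fin k)) (hF : G.comps F + 1 = G.verts) (H : Finset (Fin k)) (hH : H ⊆ F)
    (hne : H.Nonempty) : G.comps H + 1 = G.verts := by
  have h1 := D6.comps_anti G H F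
  rw [union_eq_right.2 hH] at h1
  have h2 := hloop H hne
  omega

/-- the edges of a set of rank one are on the same side -/
theorem one_side (Γ : Ribbon k) (hΓ : Γ.Planar) (S F : Finset (Fin k))
    (hloop : ∀ H : Finset (Fin k), H.Nonempty →
      (stateGraph Γ S).comps H + 1 ≤ (stateGraph Γ S).verts)
    (hF : (stateGraph Γ S).comps F + 1 = (stateGraph Γ S).verts) : F ⊆ S ∨ F ⊆ Sᶜ := by
  by_contra hcon
  push Not at hcon
  obtain ⟨hc1, hc2⟩ := hcon
  rw [not_subset] at hc1 hc2
  obtain ⟨e2, he2, he2S⟩ := hc1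
  obtain ⟨e1, he1, he1S⟩ := hc2
  rw [mem_compl, not_not] at he1S
  have hne : e1 ≠ e2 := fun h => he2S (h ▸ he1S)
  have r0 := regions Γ hΓ S ∅
  have r1 := regions Γ hΓ S {e1}
  have r2 := regions Γ hΓ S {e2}
  have r12 := regions Γ hΓ S {e1, e2}
  have c1 := comps_single _ hloop F hF {e1} (singleton_subset_iff.2 he1) (singleton_nonempty _)
  have c2 := comps_single _ hloop F hF {e2} (singleton_subset_iff.2 he2) (singleton_nonempty _)
  have c12 := comps_single _ hloop F hF {e1, e2}
    (insert_subset he1 (singleton_subset_iff.2 he2)) (insert_nonempty _ _)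
  have a1 : Sᶜ \ {e1} = Sᶜ := by
    ext x
    simp only [mem_sdiff, mem_compl, mem_singleton]
    exact ⟨fun h => h.1, fun h => ⟨h, fun h' => h (h' ▸ he1S)⟩⟩
  have a2 : S \ {e2} = S := by
    ext x
    simp only [mem_sdiff, mem_singleton]
    exact ⟨fun h => h.1, fun h => ⟨h, fun h' => he2S (h' ▸ h)⟩⟩
  have a3 : S \ {e1, e2} = S \ {e1} := by
    ext x
    simp only [mem_sdiff, mem_singleton, mem_insert]
    exact ⟨fun h => ⟨h.1, fun h' => h.2 (Or.inl h')⟩,
      fun h => ⟨h.1, fun h' => h'.elim h.2 (fun h'' => he2S (h'' ▸ h.1))⟩⟩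
  have a4 : Sᶜ \ {e1, e2} = Sᶜ \ {e2} := by
    ext x
    simp only [mem_sdiff, mem_singleton, mem_insert, mem_compl]
    exact ⟨fun h => ⟨h.1, fun h' => h.2 (Or.inr h')⟩,
      fun h => ⟨h.1, fun h' => h'.elim (fun h'' => h.1 (h'' ▸ he1S)) h.2⟩⟩
  rw [sdiff_empty, sdiff_empty, card_empty, vcomps_empty] at r0
  rw [a1, card_singleton] at r1
  rw [a2, card_singleton] at r2
  rw [a3, a4, card_pair hne] at r12
  omega

/-- the number of curves of a set of rank one -/
theorem curves_rank_one (Γ : Ribbon k) (hΓ : Γ.Planar) (S F : Finset (Fin k))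
    (hloop : ∀ H : Finset (Fin k), H.Nonempty →
      (stateGraph Γ S).comps H + 1 ≤ (stateGraph Γ S).verts)
    (hF : (stateGraph Γ S).comps F + 1 = (stateGraph Γ S).verts) :
    (stateGraph Γ S).curves F + 2 = F.card + (stateGraph Γ S).verts := by
  have h1 := curves_one_side Γ hΓ S F (one_side Γ hΓ S F hloop hF)
  omega

end Pool.Agent.N569.OD
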